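import Mathlib

/-!
# The group of circle-valued functions does not have Banach's property (alpha)

For a weight `c : X → (0, C]` the distance `sup_q c q * |x q - y q|` makes the group of all functions
`X → Circle` into a G-space whose convergence is implied by the convergence of the sup distance, and
the converse holds only if `c` is bounded away from `0`. Hence (alpha) and (beta) fail for every
infinite `X`; for finite `X` they hold by compactness.
-/

set_option autoImplicit false

namespace Pool.Agent.Results.MP_0b625c_al.WeightedSup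

open Filter Topology

universe u

/-- `x n` tends to `a` with respect to the distance `d`. -/
def Conv {E : Type u} (d : E → E → ℝ) (x : ℕ → E) (a : E) : Prop :=
  Tendsto (fun n => d (x n) a) atTop (𝓝 0)

/-- `(E, d)` is a G-space: `d` is a complete metric on the group `E` for which the group operations
are sequentially continuous. -/
structure IsGSpace (E : Type u) [Group E] (d : E → E → ℝ) : Prop where
  self : ∀ x, d x x = 0
  eq_of_zero : ∀ x y, d x y = 0 → x = y
  symm : ∀ x y, d x y = d y x
  triangle : ∀ x y z, d x z ≤ d x y + d y z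
  complete : ∀ x : ℕ → E, (∀ ε > 0, ∃ N, ∀ m ≥ N, ∀ n ≥ N, d (x m) (x n) < ε) → ∃ a, Conv d x a
  mul : ∀ (x y : ℕ → E) (a b : E), Conv d x a → Conv d y b → Conv d (fun n => x n * y n) (a * b)
  inv : ∀ (x : ℕ → E) (a : E), Conv d x a → Conv d (fun n => (x n)⁻¹) a⁻¹

/-- `U` is a bounded linear operator from `(E, d)` to `(E₁, d₁)`: a homomorphism that preserves the
limits of sequences. -/
def IsBoundedLinear {E E₁ : Type u} [Group E] [Group E₁] (d : E → E → ℝ) (d₁ : E₁ → E₁ → ℝ)
    (U : E → E₁) : Prop :=
  (∀ x y, U (x * y) = U x * U y) ∧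
    ∀ (x : ℕ → E) (a : E), Conv d x a → Conv d₁ (fun n => U (x n)) (U a)

/-- Property (alpha): a bounded linear operator that maps `E` bijectively onto a G-space has a
bounded linear inverse. -/
def Alpha (E : Type u) [Group E] (d : E → E → ℝ) : Prop :=
  ∀ (E₁ : Type u) [Group E₁] (d₁ : E₁ → E₁ → ℝ), IsGSpace E₁ d₁ →
    ∀ U : E ≃ E₁, IsBoundedLinear d d₁ U → IsBoundedLinear d₁ d U.symm

/-- Property (beta): a second distance `d'` that makes the group `E` into a G-space and whose
convergence is implied by the convergence of `d` has the same convergent sequences as `d`. -/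
def Beta (E : Type u) [Group E] (d : E → E → ℝ) : Prop :=
  ∀ d' : E → E → ℝ, IsGSpace E d' → (∀ (x : ℕ → E) (a : E), Conv d x a → Conv d' x a) →
    ∀ (x : ℕ → E) (a : E), Conv d' x a → Conv d x a

/-- the distance `sup_q |x q - y q|` on the group of all functions `X → Circle`. -/
noncomputable def supDist {X : Type u} (x y : X → Circle) : ℝ :=
  ⨆ q, ‖(x q : ℂ) - (y q : ℂ)‖

/-- the distance `sup_q c q * |x q - y q|` for a weight `c`. -/
noncomputable def weightedDist {X : Type u} (c : X → ℝ) (x y : X → Circle) : ℝ :=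
  ⨆ q, c q * ‖(x q : ℂ) - (y q : ℂ)‖

theorem norm_sub_le_two (a b : Circle) : ‖(a : ℂ) - (b : ℂ)‖ ≤ 2 := by
  refine (norm_sub_le _ _).trans ?_
  rw [Circle.norm_coe, Circle.norm_coe]
  norm_num

section Weighted

variable {X : Type u} {c : X → ℝ}

theorem bdd (hc : ∀ q, 0 < c q) (hb : BddAbove (Set.range c)) (x y : X → Circle) :
    BddAbove (Set.range fun q => c q * ‖(x q : ℂ) - (y q : ℂ)‖) := by
  obtain ⟨C, hC⟩ := hb
  refine ⟨C * 2, ?_⟩
  rintro _ ⟨q, rfl⟩
  have h1 : c q ≤ C := hC ⟨q, rfl⟩
  exact mul_le_mul h1 (norm_sub_le_two _ _) (norm_nonneg _) ((hc q).le.trans h1)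

theorem le_wd (hc : ∀ q, 0 < c q) (hb : BddAbove (Set.range c)) (x y : X → Circle) (q : X) :
    c q * ‖(x q : ℂ) - (y q : ℂ)‖ ≤ weightedDist c x y :=
  le_ciSup (bdd hc hb x y) q

theorem wd_le {x y : X → Circle} {r : ℝ} (hr : 0 ≤ r)
    (h : ∀ q, c q * ‖(x q : ℂ) - (y q : ℂ)‖ ≤ r) : weightedDist c x y ≤ r :=
  Real.iSup_le h hr

theorem wd_nonneg (hc : ∀ q, 0 < c q) (x y : X → Circle) : 0 ≤ weightedDist c x y :=
  Real.iSup_nonneg fun q => mul_nonneg (hc q).le (norm_nonneg _)

theorem wd_mul (hc : ∀ q, 0 < c q) (hb : BddAbove (Set.range c)) (x y a b : X → Circle) :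
    weightedDist c (x * y) (a * b) ≤ weightedDist c x a + weightedDist c y b := by
  refine wd_le (add_nonneg (wd_nonneg hc _ _) (wd_nonneg hc _ _)) fun q => ?_
  have h1 := le_wd hc hb x a q
  have h2 := le_wd hc hb y b q
  have h3 : ‖(((x * y) q : Circle) : ℂ) - (((a * b) q : Circle) : ℂ)‖
      ≤ ‖(x q : ℂ) - (a q : ℂ)‖ + ‖(y q : ℂ) - (b q : ℂ)‖ := by
    have h4 : (((x * y) q : Circle) : ℂ) - (((a * b) q : Circle) : ℂ)
        = ((x q : ℂ) - (a q : ℂ)) * (y q : ℂ) + (a q : ℂ) * ((y q : ℂ) - (b q : ℂ)) := by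
      simp only [Pi.mul_apply, Circle.coe_mul]; ring
    rw [h4]
    refine (norm_add_le _ _).trans ?_
    rw [norm_mul, norm_mul, Circle.norm_coe, Circle.norm_coe, mul_one, one_mul]
  nlinarith [hc q]

theorem isGSpace_weighted (hc : ∀ q, 0 < c q) (hb : BddAbove (Set.range c)) :
    IsGSpace (X → Circle) (weightedDist c) where
  self x := by simp [weightedDist]
  eq_of_zero x y h := by
    funext q
    have h1 := le_wd hc hb x y q
    rw [h] at h1
    have h2 : ‖(x q : ℂ) - (y q : ℂ)‖ ≤ 0 := by
      by_contra h3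
      push Not at h3
      have := mul_pos (hc q) h3
      linarith
    have h3 : (x q : ℂ) - (y q : ℂ) = 0 := norm_le_zero_iff.mp h2
    exact Circle.ext (sub_eq_zero.mp h3)
  symm x y := by
    simp only [weightedDist]
    congr 1
    funext q
    rw [norm_sub_rev]
  triangle x y z := by
    refine wd_le (add_nonneg (wd_nonneg hc _ _) (wd_nonneg hc _ _)) fun q => ?_
    have h1 := le_wd hc hb x y q
    have h2 := le_wd hc hb y z q
    have h3 := norm_sub_le_norm_sub_add_norm_sub (x q : ℂ) (y q : ℂ) (z q : ℂ)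
    nlinarith [hc q]
  complete x hx := by
    have hq : ∀ q, ∃ a : Circle, Tendsto (fun n => (x n q : ℂ)) atTop (𝓝 (a : ℂ)) := by
      intro q
      have hC : CauchySeq fun n => (x n q : ℂ) := by
        rw [Metric.cauchySeq_iff]
        intro ε hε
        obtain ⟨N, hN⟩ := hx (c q * ε) (mul_pos (hc q) hε)
        refine ⟨N, fun m hm n hn => ?_⟩
        have h1 := (le_wd hc hb (x m) (x n) q).trans_lt (hN m hm n hn)
        rw [dist_eq_norm]
        exact lt_of_mul_lt_mul_left h1 (hc q).le
      obtain ⟨z, hz⟩ := cauchySeq_tendsto_of_complete hC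
      have h1 : ‖z‖ = 1 := by
        refine tendsto_nhds_unique hz.norm ?_
        simp only [Circle.norm_coe]
        exact tendsto_const_nhds
      exact ⟨⟨z, mem_sphere_zero_iff_norm.mpr h1⟩, hz⟩
    choose a ha using hq
    refine ⟨a, ?_⟩
    rw [Conv, Metric.tendsto_atTop]
    intro ε hε
    obtain ⟨N, hN⟩ := hx (ε / 2) (half_pos hε)
    refine ⟨N, fun n hn => ?_⟩
    rw [Real.dist_eq, sub_zero, abs_of_nonneg (wd_nonneg hc _ _)]
    refine lt_of_le_of_lt (wd_le (half_pos hε).le fun q => ?_) (half_lt_self hε)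
    have h1 : Tendsto (fun m => c q * ‖(x n q : ℂ) - (x m q : ℂ)‖) atTop
        (𝓝 (c q * ‖(x n q : ℂ) - (a q : ℂ)‖)) := by
      refine Tendsto.const_mul _ (Tendsto.norm (Tendsto.sub tendsto_const_nhds ?_))
      exact ha q
    refine le_of_tendsto h1 ?_
    filter_upwards [eventually_ge_atTop N] with m hm
    exact ((le_wd hc hb (x n) (x m) q).trans_lt (hN n hn m hm)).le
  mul x y a b hx hy := by
    refine squeeze_zero (fun n => wd_nonneg hc _ _) (fun n => wd_mul hc hb (x n) (y n) a b) ?_
    have := Tendsto.add hx hy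
    rwa [add_zero] at this
  inv x a hx := by
    have h : ∀ y : X → Circle, weightedDist c y⁻¹ a⁻¹ = weightedDist c y a := by
      intro y
      simp only [weightedDist]
      congr 1
      funext q
      congr 1
      have h1 : (((y⁻¹) q : Circle) : ℂ) - (((a⁻¹) q : Circle) : ℂ)
          = -(((y⁻¹) q : Circle) : ℂ) * (((a⁻¹) q : Circle) : ℂ) * ((y q : ℂ) - (a q : ℂ)) := by
        have h2 : (((y⁻¹) q : Circle) : ℂ) * (y q : ℂ) = 1 := by
          rw [← Circle.coe_mul]; simp
        have h3 : (((a⁻¹) q : Circle) : ℂ) * (a q : ℂ) = 1 := by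
          rw [← Circle.coe_mul]; simp
        linear_combination (((a⁻¹) q : Circle) : ℂ) * h2 - (((y⁻¹) q : Circle) : ℂ) * h3
      rw [h1, norm_mul, norm_mul, norm_neg, Circle.norm_coe, Circle.norm_coe, one_mul, one_mul]
    simp only [Conv, h]
    exact hx

theorem conv_weighted_of_sup (hc : ∀ q, 0 < c q) (hb : BddAbove (Set.range c))
    (x : ℕ → X → Circle) (a : X → Circle) (h : Conv supDist x a) : Conv (weightedDist c) x a := by
  obtain ⟨C, hC⟩ := hb
  have hb' : BddAbove (Set.range c) := ⟨C, hC⟩
  have hd : ∀ y : X → Circle, weightedDist c y a ≤ |C| * supDist y a := by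
    intro y
    have h0 : 0 ≤ supDist y a := Real.iSup_nonneg fun q => norm_nonneg _
    refine wd_le (mul_nonneg (abs_nonneg C) h0) fun q => ?_
    have h1 : ‖(y q : ℂ) - (a q : ℂ)‖ ≤ supDist y a :=
      le_ciSup (f := fun q => ‖(y q : ℂ) - (a q : ℂ)‖)
        ⟨2, by rintro _ ⟨q, rfl⟩; exact norm_sub_le_two _ _⟩ q
    exact mul_le_mul ((hC ⟨q, rfl⟩ : c q ≤ C).trans (le_abs_self C)) h1 (norm_nonneg _)
      (abs_nonneg C)
  refine squeeze_zero (fun n => wd_nonneg hc _ _) (fun n => hd (x n)) ?_
  have := Tendsto.const_mul (|C|) h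
  rwa [mul_zero] at this

/-- the function with the value `-1` at `q` and `1` elsewhere. -/
noncomputable def spike (q : X) : X → Circle := by
  classical exact fun r => if r = q then -1 else 1

theorem norm_neg_one_sub : ‖(((-1 : Circle) : Circle) : ℂ) - ((1 : Circle) : ℂ)‖ = 2 := by
  rw [Circle.coe_neg, Circle.coe_one, ← neg_add', norm_neg]
  norm_num

theorem weighted_spike (hc : ∀ q, 0 < c q) (q : X) : weightedDist c (spike q) 1 ≤ 2 * c q := by
  classical
  refine wd_le (by have := hc q; linarith) fun r => ?_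
  by_cases hr : r = q
  · subst hr
    have h1 : (spike r r : Circle) = -1 := by simp [spike]
    rw [h1]
    rw [Pi.one_apply, norm_neg_one_sub, mul_comm]
  · have h1 : (spike q r : Circle) = 1 := by simp [spike, hr]
    rw [h1]
    simp only [Pi.one_apply, sub_self, norm_zero, mul_zero]
    have := hc q; linarith

theorem supDist_spike (q : X) : 2 ≤ supDist (spike q) 1 := by
  classical
  have h1 : ‖((spike q q : Circle) : ℂ) - ((1 : Circle) : ℂ)‖ ≤ supDist (spike q) 1 :=
    le_ciSup (f := fun r => ‖((spike q r : Circle) : ℂ) - (((1 : X → Circle) r : Circle) : ℂ)‖)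
      ⟨2, by rintro _ ⟨q, rfl⟩; exact norm_sub_le_two _ _⟩ q
  have h2 : (spike q q : Circle) = -1 := by simp [spike]
  rw [h2, norm_neg_one_sub] at h1
  exact h1

theorem conv_sup_of_weighted_iff (hc : ∀ q, 0 < c q) (hb : BddAbove (Set.range c)) :
    (∀ (x : ℕ → X → Circle) (a : X → Circle), Conv (weightedDist c) x a → Conv supDist x a) ↔
      ∃ δ > 0, ∀ q, δ ≤ c q := by
  constructor
  · intro h
    by_contra hcon
    push Not at hcon
    have h1 : ∀ n : ℕ, ∃ q, c q < 1 / ((n : ℝ) + 1) := fun n => hcon _ Nat.one_div_pos_of_nat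
    choose q hq using h1
    have h2 : Conv (weightedDist c) (fun n => spike (q n)) 1 := by
      refine squeeze_zero (fun n => wd_nonneg hc _ _) (g := fun n : ℕ => 2 * (1 / ((n : ℝ) + 1)))
        (fun n => ?_) ?_
      · exact (weighted_spike hc (q n)).trans (by have := hq n; linarith)
      · have := Tendsto.const_mul (2 : ℝ) (tendsto_one_div_add_atTop_nhds_zero_nat (𝕜 := ℝ))
        rwa [mul_zero] at this
    have h3 := h _ _ h2
    have h4 : (2 : ℝ) ≤ 0 := ge_of_tendsto' h3 fun n => supDist_spike (q n)
    linarith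
  · rintro ⟨δ, hδ, hq⟩ x a hx
    have hd : ∀ n, supDist (x n) a ≤ δ⁻¹ * weightedDist c (x n) a := by
      intro n
      refine Real.iSup_le (fun q => ?_) (mul_nonneg (inv_pos.mpr hδ).le (wd_nonneg hc _ _))
      have h2 : δ * ‖(x n q : ℂ) - (a q : ℂ)‖ ≤ weightedDist c (x n) a :=
        (mul_le_mul_of_nonneg_right (hq q) (norm_nonneg _)).trans (le_wd hc hb _ _ q)
      rw [inv_mul_eq_div, le_div_iff₀ hδ, mul_comm]
      exact h2
    refine squeeze_zero (fun n => Real.iSup_nonneg fun q => norm_nonneg _) hd ?_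
    have := Tendsto.const_mul (δ⁻¹) hx
    rwa [mul_zero] at this

end Weighted

theorem isGSpace_sup (X : Type u) : IsGSpace (X → Circle) supDist := by
  have h : (supDist : (X → Circle) → (X → Circle) → ℝ) = weightedDist fun _ => 1 := by
    funext x y
    simp [supDist, weightedDist]
  rw [h]
  exact isGSpace_weighted (fun _ => one_pos) ⟨1, by rintro _ ⟨q, rfl⟩; exact le_rfl⟩

/-- On an infinite set there is a bounded positive weight with infimum `0`. -/
theorem exists_weight (X : Type u) [Infinite X] :
    ∃ c : X → ℝ, (∀ q, 0 < c q) ∧ BddAbove (Set.range c) ∧ ¬ ∃ δ > 0, ∀ q, δ ≤ c q := by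
  classical
  let e : ℕ ↪ X := Infinite.natEmbedding X
  refine ⟨fun q => if h : ∃ n, e n = q then 1 / ((h.choose : ℝ) + 1) else 1, fun q => ?_, ?_, ?_⟩
  · dsimp only
    split_ifs with h
    · exact Nat.one_div_pos_of_nat
    · exact one_pos
  · refine ⟨1, ?_⟩
    rintro _ ⟨q, rfl⟩
    dsimp only
    split_ifs with h
    · rw [div_le_one (by positivity)]
      have : (0 : ℝ) ≤ (h.choose : ℝ) := Nat.cast_nonneg _
      linarith
    · exact le_rfl
  · rintro ⟨δ, hδ, h⟩
    obtain ⟨n, hn⟩ := exists_nat_one_div_lt hδ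
    have h1 := h (e n)
    have hex : ∃ m, e m = e n := ⟨n, rfl⟩
    have h2 : hex.choose = n := e.injective hex.choose_spec
    dsimp only at h1
    rw [dif_pos hex, h2] at h1
    linarith

theorem not_beta (X : Type u) [Infinite X] : ¬ Beta (X → Circle) supDist := by
  intro h
  obtain ⟨c, hc, hb, hn⟩ := exists_weight X
  exact hn ((conv_sup_of_weighted_iff hc hb).mp
    (h _ (isGSpace_weighted hc hb) (conv_weighted_of_sup hc hb)))

theorem not_alpha (X : Type u) [Infinite X] : ¬ Alpha (X → Circle) supDist := by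
  intro h
  obtain ⟨c, hc, hb, hn⟩ := exists_weight X
  have h1 := h (X → Circle) (weightedDist c) (isGSpace_weighted hc hb) (Equiv.refl _)
    ⟨fun _ _ => rfl, fun x a hx => conv_weighted_of_sup hc hb x a hx⟩
  exact hn ((conv_sup_of_weighted_iff hc hb).mp fun x a hx => h1.2 x a hx)

theorem beta_of_alpha {E : Type u} [Group E] {d : E → E → ℝ} (h : Alpha E d) : Beta E d := by
  intro d' h1 h2 x a hx
  exact (h E d' h1 (Equiv.refl _) ⟨fun _ _ => rfl, fun x a hx => h2 x a hx⟩).2 x a hx

/-- For finite `X` the convergence of the sup distance is the convergence at every point. -/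
theorem conv_sup_iff (X : Type u) [Finite X] (x : ℕ → X → Circle) (a : X → Circle) :
    Conv supDist x a ↔ Tendsto x atTop (𝓝 a) := by
  have := Fintype.ofFinite X
  have h : ∀ y : X → Circle, supDist y a = dist y a := by
    intro y
    have h0 : ∀ q, ‖(y q : ℂ) - (a q : ℂ)‖ = dist (y q) (a q) := by
      intro q
      rw [← dist_eq_norm]; rfl
    apply le_antisymm
    · refine Real.iSup_le (fun q => ?_) dist_nonneg
      rw [h0]
      exact dist_le_pi_dist y a q
    · have h1 : 0 ≤ supDist y a := Real.iSup_nonneg fun q => norm_nonneg _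
      rw [dist_pi_le_iff h1]
      intro q
      rw [← h0]
      exact le_ciSup (f := fun q => ‖(y q : ℂ) - (a q : ℂ)‖)
        ⟨2, by rintro _ ⟨q, rfl⟩; exact norm_sub_le_two _ _⟩ q
  rw [tendsto_iff_dist_tendsto_zero]
  simp only [Conv, h]

theorem alpha_of_finite (X : Type u) [Finite X] : Alpha (X → Circle) supDist := by
  intro E₁ _ d₁ hG U hU
  refine ⟨fun x y => ?_, fun y b hy => ?_⟩
  · apply U.injective
    rw [hU.1]
    simp
  · rw [conv_sup_iff]
    refine tendsto_of_subseq_tendsto fun ns hns => ?_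
    have hcomp : IsSeqCompact (Set.univ : Set (X → Circle)) := isCompact_univ.isSeqCompact
    obtain ⟨a, -, φ, hφ, ha⟩ := hcomp (x := fun n => U.symm (y (ns n))) (fun n => Set.mem_univ _)
    refine ⟨φ, ?_⟩
    have h1 : Conv d₁ (fun n => y (ns (φ n))) (U a) := by
      have h2 := hU.2 _ a ((conv_sup_iff X _ a).mpr ha)
      simpa [Function.comp_def] using h2
    have h2 : Conv d₁ (fun n => y (ns (φ n))) b := hy.comp (hns.comp hφ.tendsto_atTop)
    have h3 : d₁ (U a) b = 0 := by
      have h4 : Tendsto (fun n => d₁ (y (ns (φ n))) (U a) + d₁ (y (ns (φ n))) b) atTop (𝓝 0) := by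
        have := Tendsto.add h1 h2
        rwa [add_zero] at this
      have h5 : d₁ (U a) b ≤ 0 := ge_of_tendsto' h4 fun n => by
        have h7 := hG.triangle (U a) (y (ns (φ n))) b
        have h8 := hG.symm (U a) (y (ns (φ n)))
        linarith
      have h6 : 0 ≤ d₁ (U a) b := by
        have := hG.triangle (U a) b (U a)
        rw [hG.self, hG.symm b (U a)] at this
        linarith
      exact le_antisymm h5 h6
    have h4 : U.symm b = a := by
      rw [← hG.eq_of_zero _ _ h3]; simp
    rw [h4]
    exact ha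

/-- The G-space of all functions from the circle to the circle has neither property (alpha) nor
property (beta). More generally, for every set `X` the G-space of all functions `X → Circle` with the
sup distance has (alpha), and has (beta), exactly if `X` is finite; and every bounded positive weight
`c` gives a distance that makes this group into a G-space, whose convergence is implied by the
convergence of the sup distance and is equivalent to it exactly if `c` is bounded away from `0`. -/
theorem result :
    (¬ Alpha (Circle → Circle) supDist ∧ ¬ Beta (Circle → Circle) supDist) ∧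
    (∀ X : Type u, IsGSpace (X → Circle) supDist ∧
      (Alpha (X → Circle) supDist ↔ Finite X) ∧ (Beta (X → Circle) supDist ↔ Finite X)) ∧
    (∀ (X : Type u) (c : X → ℝ), (∀ q, 0 < c q) → BddAbove (Set.range c) →
      IsGSpace (X → Circle) (weightedDist c) ∧
      (∀ (x : ℕ → X → Circle) (a : X → Circle), Conv supDist x a → Conv (weightedDist c) x a) ∧
      ((∀ (x : ℕ → X → Circle) (a : X → Circle), Conv (weightedDist c) x a → Conv supDist x a) ↔
        ∃ δ > 0, ∀ q, δ ≤ c q)) := by
  have hinf : Infinite Circle := by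
    have h : Function.Injective (fun t : Set.Ioc (-Real.pi) Real.pi => Circle.exp t.1) := by
      intro s t hst
      have h1 := congrArg (fun z : Circle => Complex.arg z) hst
      simp only at h1
      rw [Circle.arg_exp s.2.1 s.2.2, Circle.arg_exp t.2.1 t.2.2] at h1
      exact Subtype.ext h1
    have hinf : Infinite (Set.Ioc (-Real.pi) Real.pi) :=
      (Set.Ioc_infinite (by linarith [Real.pi_pos])).to_subtype
    exact Infinite.of_injective _ h
  refine ⟨⟨not_alpha Circle, not_beta Circle⟩, fun X => ⟨isGSpace_sup X, ?_, ?_⟩,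
    fun X c hc hb => ⟨isGSpace_weighted hc hb, conv_weighted_of_sup hc hb,
      conv_sup_of_weighted_iff hc hb⟩⟩
  · constructor
    · intro h
      by_contra hX
      rw [not_finite_iff_infinite] at hX
      exact not_alpha X h
    · intro hX
      exact alpha_of_finite X
  · constructor
    · intro h
      by_contra hX
      rw [not_finite_iff_infinite] at hX
      exact not_beta X h
    · intro hX
      exact beta_of_alpha (alpha_of_finite X)

end Pool.Agent.Results.MP_0b625c_al.WeightedSup
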